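import Mathlib
import Pool.Agent.Q323.CA.Tan
import Pool.Agent.Q323.CA.Desc
import Pool.Agent.Q323.CA.Cmp
import Pool.Agent.Y703.CX.Fin

/-!
# An algorithm for `X³ + Y³ = A` that answers for 56 percent of the `A` with one prime `≡ 2` mod `3`

We construct a decidable set `S` of integers, with `#(S ∩ [1, X]) ≥ c X / √(log X)`, such that for
`A ∈ S` the group of the rational points of the cubic curve `X³ + Y³ = A` is trivial (the empty set
is a generating set, and `r(A) = 0`), and such that `S` contains exactly the proportion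
`∏_{i ≥ 1} (1 - 3^{-i}) = 0.5601...` of the squarefree `A`, prime to `3`, not `±1` modulo `9`, with
exactly one prime factor `≡ 2` modulo `3` (and any number of prime factors `≡ 1` modulo `3`).

The descent and the exact proportion are taken from the starting files (`Pool/Agent/Y703/CT`,
`Pool/Agent/Y703/CX`, joint work of about forty agents, see there); the decision procedure, the map
to the isogenous curve and the tangent argument are new here.
-/

set_option autoImplicit false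

open scoped Classical

namespace Pool.Agent.Results.MP_8e0b0b_nt.TrivialGroupOnDecidableSet

open Filter Topology Finset

/-- the set of the rational points of the curve `C_A : X³ + Y³ = A`; the point at infinity `O` is
`none` -/
def Points (A : ℤ) : Set (Option (ℚ × ℚ)) :=
  {P | ∀ X Y : ℚ, P = some (X, Y) → X ^ 3 + Y ^ 3 = A}

/-- the class: `D` squarefree, prime to `3`, not `±1` modulo `9`, exactly one prime factor
congruent to `2` modulo `3` -/
def Class (D : ℕ) : Prop :=
  Squarefree D ∧ ¬ 3 ∣ D ∧ D % 9 ≠ 1 ∧ D % 9 ≠ 8 ∧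
    ∃ q : ℕ, q.Prime ∧ q % 3 = 2 ∧ q ∣ D ∧ ∀ p : ℕ, p.Prime → p ∣ D → p ≠ q → p % 3 = 1

theorem class_iff (D : ℕ) : Class D ↔ Squarefree D ∧ Pool.Agent.Y703.CT.Cls D := by
  unfold Class Pool.Agent.Y703.CT.Cls Pool.Agent.Y703.CT.Base
  constructor
  · rintro ⟨h1, h2, h3, h4, h5⟩
    refine ⟨h1, ⟨h1.ne_zero, h2, ?_⟩, h3, h4, h5⟩
    intro p hp h
    have h6 : p * p ∣ D := (Dvd.intro p (by ring)).trans h
    exact hp.one_lt.ne' (Nat.isUnit_iff.1 (h1 p h6))
  · rintro ⟨h1, ⟨h6, h2, h7⟩, h3, h4, h5⟩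
    exact ⟨h1, h2, h3, h4, h5⟩

lemma finite_sols {D : ℕ} (hD : D ≠ 0)
    (h : Finite (Pool.Agent.Y703.CT.EQ (Pool.Agent.Y703.CT.WD D)).toAffine.Point) :
    {p : ℚ × ℚ | p.1 ^ 3 + p.2 ^ 3 = D}.Finite := by
  have hns : ∀ p : ℚ × ℚ, p.1 ^ 3 + p.2 ^ 3 = D →
      (Pool.Agent.Y703.CT.EQ (Pool.Agent.Y703.CT.WD D)).toAffine.Nonsingular
        (-(p.1 * p.2)) (-p.1 ^ 3) := by
    intro p hp
    rw [WeierstrassCurve.Affine.nonsingular_iff', WeierstrassCurve.Affine.equation_iff]
    simp only [Pool.Agent.Y703.CT.EQ, Pool.Agent.Y703.CT.WD, WeierstrassCurve.map_a₁,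
      WeierstrassCurve.map_a₂, WeierstrassCurve.map_a₃, WeierstrassCurve.map_a₄,
      WeierstrassCurve.map_a₆, map_zero]
    have e0 : (Int.castRingHom ℚ) (D : ℤ) = (D : ℚ) := by simp
    rw [e0]
    have hDq : (D : ℚ) ≠ 0 := by exact_mod_cast hD
    refine ⟨by rw [← hp]; ring, ?_⟩
    by_contra hcon
    push Not at hcon
    obtain ⟨h1, h2⟩ := hcon
    have h3 : p.1 * p.2 = 0 := by
      have : (p.1 * p.2) ^ 2 = 0 := by linear_combination -(1 / 3 : ℚ) * h1
      exact pow_eq_zero_iff (two_ne_zero) |>.1 this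
    have h4 : (D : ℚ) = 2 * p.1 ^ 3 := by linear_combination h2
    have h5 : (p.1 * p.2) ^ 3 = p.1 ^ 3 * (D - p.1 ^ 3) := by rw [← hp]; ring
    rw [h3, h4] at h5
    have h6 : p.1 ^ 3 = 0 := by
      have : (p.1 ^ 3) ^ 2 = 0 := by linear_combination -h5
      exact pow_eq_zero_iff (two_ne_zero) |>.1 this
    rw [h6] at h4
    apply hDq
    rw [h4]
    ring
  have : Finite {p : ℚ × ℚ | p.1 ^ 3 + p.2 ^ 3 = D} := by
    refine Finite.of_injective (fun p : {p : ℚ × ℚ | p.1 ^ 3 + p.2 ^ 3 = D} =>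
      (WeierstrassCurve.Affine.Point.some _ _ (hns p.1 p.2) :
        (Pool.Agent.Y703.CT.EQ (Pool.Agent.Y703.CT.WD D)).toAffine.Point)) ?_
    rintro ⟨⟨X, Y⟩, hp⟩ ⟨⟨X', Y'⟩, hp'⟩ hpp
    simp only [WeierstrassCurve.Affine.Point.some.injEq] at hpp
    simp only [Set.mem_ofPred_eq] at hp hp'
    have h1 : X ^ 3 = X' ^ 3 := by linear_combination -hpp.2
    have h2 : X = X' := (Odd.strictMono_pow (by decide : Odd 3)).injective h1
    have h3 : Y ^ 3 = Y' ^ 3 := by linear_combination hp - hp' - h1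
    have h4 : Y = Y' := (Odd.strictMono_pow (by decide : Odd 3)).injective h3
    subst h2 h4
    rfl
  exact Set.toFinite _

lemma no_sols {D : ℕ} (h : Pool.Agent.Q323.CA.Gd D) (X Y : ℚ) : X ^ 3 + Y ^ 3 ≠ D := by
  obtain ⟨h1, h2, h3⟩ := (Pool.Agent.Q323.CA.gd_iff D).1 h
  intro he
  have hD1 : 1 < D := by
    have h1' := h1
    obtain ⟨-, -, -, q, hq, -, hqD, -⟩ := h1'
    exact hq.one_lt.trans_le (Nat.le_of_dvd (Nat.pos_of_ne_zero h1.1.1) hqD)
  exact h3 (Pool.Agent.Q323.CA.all_eq h1.1.2.2 hD1 (finite_sols h1.1.1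
    (Pool.Agent.Q323.CA.fin_of h1 h2)) he).1

lemma sa_iff (A : ℤ) : Pool.Agent.Q323.CA.SA A ↔
    ∃ n D : ℕ, A ≠ 0 ∧ n ^ 3 * D = A.natAbs ∧ Pool.Agent.Q323.CA.Gd D := by
  have e : A.toNat + (-A).toNat = A.natAbs := by omega
  unfold Pool.Agent.Q323.CA.SA
  rw [e]
  constructor
  · rintro ⟨n, hn, D, hD, h1, h2⟩
    refine ⟨n, D, ?_, by rw [← h1]; ring, h2⟩
    rintro rfl
    have h3 : D ≠ 0 := ((Pool.Agent.Q323.CA.gd_iff D).1 h2).1.1.1
    rw [Int.natAbs_zero] at hD
    omega
  · rintro ⟨n, D, hA, h1, h2⟩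
    have hA' : A.natAbs ≠ 0 := Int.natAbs_ne_zero.2 hA
    have hn : n ≠ 0 := by
      rintro rfl
      apply hA'
      rw [← h1]
      ring
    refine ⟨n, ?_, D, ?_, by rw [← h1]; ring, h2⟩
    · have h3 : n ∣ A.natAbs := by
        rw [← h1]
        exact (dvd_pow_self n (by norm_num)).mul_right D
      have := Nat.le_of_dvd (Nat.pos_of_ne_zero hA') h3
      omega
    · have h3 : D ∣ A.natAbs := ⟨n ^ 3, by rw [← h1]; ring⟩
      have := Nat.le_of_dvd (Nat.pos_of_ne_zero hA') h3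
      omega

/-- **Theorem.** There is a set `S` of nonzero integers such that
(1) `S` is decidable (its characteristic function is computable);
(2) for `A ∈ S` the curve `X³ + Y³ = A` has no rational point except for the point at infinity `O`
(the group `C_A(ℚ)` is trivial, the empty set is a generating set and `r(A) = 0`);
(3) `n³ A ∈ S` for `A ∈ S` and `n ≠ 0`;
(4) the proportion of the elements of `S` among the `D ≤ X` of the class (`D` squarefree, prime to
`3`, not `±1` modulo `9`, exactly one prime factor `≡ 2` modulo `3`) tends to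
`∏_{i ≥ 1} (1 - 3^{-i}) > 0.56`;
(5) with a constant `c > 0`, the number of the positive integers `A ≤ X` in `S` is at least
`c X / √(log X)` for all large `X`. -/
theorem result : ∃ S : Set ℤ, (ComputablePred fun A : ℤ => A ∈ S) ∧
    (∀ A ∈ S, A ≠ 0 ∧ Points A = {none}) ∧
    (∀ A ∈ S, ∀ n : ℤ, n ≠ 0 → n ^ 3 * A ∈ S) ∧
    Tendsto (fun X : ℕ => (((Icc 1 X).filter fun D => Class D ∧ (D : ℤ) ∈ S).card : ℝ) /
      (((Icc 1 X).filter fun D => Class D).card : ℝ)) atTop
      (𝓝 (∏' i : ℕ, (1 - (1 / 3 : ℝ) ^ (i + 1)))) ∧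
    0.56 < ∏' i : ℕ, (1 - (1 / 3 : ℝ) ^ (i + 1)) ∧
    ∃ c : ℝ, 0 < c ∧ ∀ᶠ X : ℕ in atTop, c * X / √(Real.log X) ≤
      (((Icc 1 X).filter fun A : ℕ => (A : ℤ) ∈ S).card : ℝ) := by
  refine ⟨{A | Pool.Agent.Q323.CA.SA A}, Pool.Agent.Q323.CA.csa, ?_, ?_, ?_⟩
  · intro A hA
    obtain ⟨n, D, h0, h1, h2⟩ := (sa_iff A).1 hA
    refine ⟨h0, ?_⟩
    have hn : n ≠ 0 := by
      rintro rfl
      apply Int.natAbs_ne_zero.2 h0
      rw [← h1]
      ring
    have hnq : (n : ℚ) ≠ 0 := by exact_mod_cast hn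
    have key : ∀ X Y : ℚ, X ^ 3 + Y ^ 3 ≠ (A : ℚ) := by
      intro X Y hXY
      rcases Int.natAbs_eq A with h3 | h3
      · apply no_sols h2 (X / n) (Y / n)
        have h4 : (A : ℚ) = (n : ℚ) ^ 3 * D := by
          have h5 : A = (n : ℤ) ^ 3 * D := by rw [h3, ← h1]; push_cast; ring
          rw [h5]
          push_cast
          ring
        rw [div_pow, div_pow, ← add_div, hXY, h4]
        field_simp
      · apply no_sols h2 (-X / n) (-Y / n)
        have h4 : (A : ℚ) = -((n : ℚ) ^ 3 * D) := by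
          have h5 : A = -((n : ℤ) ^ 3 * D) := by rw [h3, ← h1]; push_cast; ring
          rw [h5]
          push_cast
          ring
        have h6 : (-X) ^ 3 + (-Y) ^ 3 = (n : ℚ) ^ 3 * D := by
          linear_combination -hXY - h4
        rw [div_pow, div_pow, ← add_div, h6]
        field_simp
    ext P
    rw [Set.mem_singleton_iff]
    constructor
    · intro hP
      cases P with
      | none => rfl
      | some p => exact absurd (hP p.1 p.2 rfl) (key p.1 p.2)
    · rintro rfl X Y hXY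
      cases hXY
  · intro A hA n hn
    obtain ⟨m, D, h0, h1, h2⟩ := (sa_iff A).1 hA
    refine (sa_iff _).2 ⟨n.natAbs * m, D, mul_ne_zero (pow_ne_zero 3 hn) h0, ?_, h2⟩
    rw [Int.natAbs_mul, Int.natAbs_pow, ← h1]
    ring
  have hSA : ∀ D : ℕ, Class D → ((D : ℤ) ∈ {A | Pool.Agent.Q323.CA.SA A} ↔
      Pool.Agent.Y703.CT.NoSplit D ∧ D ≠ 2) := by
    intro D hC
    obtain ⟨hsq, hcls⟩ := (class_iff D).1 hC
    rw [Set.mem_ofPred_eq, sa_iff]
    constructor
    · rintro ⟨n, E, -, h1, h2⟩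
      rw [Int.natAbs_natCast] at h1
      have hn : n = 1 := by
        by_contra hcon
        obtain ⟨p, hp, hpn⟩ := Nat.exists_prime_and_dvd hcon
        have h3 : p ^ 3 ∣ D := by
          rw [← h1]
          exact (pow_dvd_pow_of_dvd hpn 3).mul_right E
        exact hcls.1.2.2 p hp h3
      rw [hn, one_pow, one_mul] at h1
      rw [← h1]
      exact ((Pool.Agent.Q323.CA.gd_iff E).1 h2).2
    · rintro ⟨h1, h2⟩
      exact ⟨1, D, by exact_mod_cast hsq.ne_zero, by rw [Int.natAbs_natCast]; ring,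
        (Pool.Agent.Q323.CA.gd_iff D).2 ⟨hcls, h1, h2⟩⟩
  have hden := Pool.Agent.Y703.CX.t_DEN
  unfold Pool.Agent.Y703.CX.S_DEN at hden
  have hc3 := Pool.Agent.Y461.CX.t_C3
  unfold Pool.Agent.Y703.CX.S_C3 at hc3
  obtain ⟨-, hc0, -, hc56⟩ := hc3
  obtain ⟨c, X₀, hc, hlow⟩ := Pool.Agent.Y461.CX.t_LOW Pool.Agent.Y87.CX.t_MER
    Pool.Agent.Y461.CX.t_CHE
  set b : ℕ → ℝ := fun X => (((Icc 1 X).filter fun D => Squarefree D ∧
    Pool.Agent.Y703.CT.Cls D).card : ℝ) with hb
  set a : ℕ → ℝ := fun X => (((Icc 1 X).filter fun D => Squarefree D ∧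
    Pool.Agent.Y703.CT.Cls D ∧ Pool.Agent.Y703.CT.NoSplit D).card : ℝ) with ha
  have hlow' : ∀ X : ℕ, X₀ ≤ X → c * X * (Real.log X) ^ (-(1 / 2) : ℝ) ≤ b X := by
    intro X hX
    refine (hlow X hX).trans (le_of_eq ?_)
    have e2 := Pool.Agent.Y710.CX.card_eq X (fun _ => True) (fun _ => True) fun _ _ _ => Iff.rfl
    rw [Finset.filter_true] at e2
    simp only [and_true] at e2
    simp only [hb]
    exact_mod_cast e2.symm
  have hbt : Tendsto b atTop atTop := by
    have h1 : Tendsto (fun X : ℕ => c * Real.sqrt X) atTop atTop :=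
      (Real.tendsto_sqrt_atTop.comp tendsto_natCast_atTop_atTop).const_mul_atTop hc
    refine tendsto_atTop_mono' atTop ?_ h1
    filter_upwards [eventually_ge_atTop X₀, eventually_ge_atTop 3] with X hX hX3
    refine le_trans ?_ (hlow' X hX)
    have hXr : (3 : ℝ) ≤ X := by exact_mod_cast hX3
    have hX0 : (0 : ℝ) < X := by linarith
    have hl : 0 < Real.log X := Real.log_pos (by linarith)
    have h2 : Real.log X ≤ X := (Real.log_le_sub_one_of_pos hX0).trans (by linarith)
    rw [mul_assoc]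
    refine mul_le_mul_of_nonneg_left ?_ hc.le
    rw [Real.rpow_neg hl.le, ← Real.sqrt_eq_rpow]
    rw [← div_eq_mul_inv, le_div_iff₀ (Real.sqrt_pos.2 hl)]
    calc √(X : ℝ) * √(Real.log X) ≤ √(X : ℝ) * √(X : ℝ) :=
          mul_le_mul_of_nonneg_left (Real.sqrt_le_sqrt h2) (Real.sqrt_nonneg _)
      _ = X := Real.mul_self_sqrt hX0.le
  have e1 : ∀ X : ℕ, (((Icc 1 X).filter fun D => Class D).card : ℝ) = b X := by
    intro X
    rw [hb]
    simp only
    congr 2
    exact filter_congr fun D _ => class_iff D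
  have e2 : ∀ X : ℕ, 2 ≤ X → (((Icc 1 X).filter fun D => Class D ∧
      (D : ℤ) ∈ {A | Pool.Agent.Q323.CA.SA A}).card : ℝ) = a X - 1 := by
    intro X hX
    have h2 : 2 ∈ (Icc 1 X).filter fun D => Squarefree D ∧ Pool.Agent.Y703.CT.Cls D ∧
        Pool.Agent.Y703.CT.NoSplit D := by
      refine mem_filter.2 ⟨mem_Icc.2 ⟨by norm_num, hX⟩, ?_, ?_, ?_⟩
      · exact Nat.prime_two.prime.squarefree
      · refine ⟨⟨by norm_num, by norm_num, fun p hp hpd => ?_⟩, by norm_num, by norm_num, 2,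
          Nat.prime_two, by norm_num, dvd_rfl, fun p hp hp2 hne => ?_⟩
        · have h3 := Nat.le_of_dvd (by norm_num) hpd
          have h4 := Nat.pow_le_pow_left hp.two_le 3
          omega
        · exact absurd ((Nat.prime_dvd_prime_iff_eq hp Nat.prime_two).1 hp2) hne
      · intro d hd _ _
        have e : ∏ c, d c = d 0 * d 1 * d 2 := by
          rw [show (Finset.univ : Finset (ZMod 3)) = {0, 1, 2} by decide]
          rw [Finset.prod_insert (by decide), Finset.prod_insert (by decide),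
            Finset.prod_singleton, mul_assoc]
        have hc3' : ∀ c : ZMod 3, c = 0 ∨ c = 1 ∨ c = 2 := by decide
        have h3 : ∀ c, d c = 1 ∨ d c = 2 := by
          intro c
          have h4 : d c ∣ 2 := by
            rw [← hd]
            exact Finset.dvd_prod_of_mem d (Finset.mem_univ c)
          exact (Nat.dvd_prime Nat.prime_two).1 h4
        rw [e] at hd
        rcases h3 0 with k0 | k0 <;> rcases h3 1 with k1 | k1 <;> rcases h3 2 with k2 | k2 <;>
          rw [k0, k1, k2] at hd <;> norm_num at hd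
        · refine ⟨2, fun c hc => ?_⟩
          rcases hc3' c with rfl | rfl | rfl
          · exact k0
          · exact k1
          · exact absurd rfl hc
        · refine ⟨1, fun c hc => ?_⟩
          rcases hc3' c with rfl | rfl | rfl
          · exact k0
          · exact absurd rfl hc
          · exact k2
        · refine ⟨0, fun c hc => ?_⟩
          rcases hc3' c with rfl | rfl | rfl
          · exact absurd rfl hc
          · exact k1
          · exact k2
    have h3 : (Icc 1 X).filter (fun D => Class D ∧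
      (D : ℤ) ∈ {A | Pool.Agent.Q323.CA.SA A}) = ((Icc 1 X).filter fun D => Squarefree D ∧
        Pool.Agent.Y703.CT.Cls D ∧ Pool.Agent.Y703.CT.NoSplit D).erase 2 := by
      ext D
      rw [mem_erase, mem_filter, mem_filter]
      constructor
      · rintro ⟨h4, h5, h6⟩
        obtain ⟨h7, h8⟩ := (hSA D h5).1 h6
        obtain ⟨h9, h10⟩ := (class_iff D).1 h5
        exact ⟨h8, h4, h9, h10, h7⟩
      · rintro ⟨h8, h4, h9, h10, h7⟩
        have h5 := (class_iff D).2 ⟨h9, h10⟩
        exact ⟨h4, h5, (hSA D h5).2 ⟨h7, h8⟩⟩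
    rw [h3, card_erase_of_mem h2, Nat.cast_sub (Finset.card_pos.2 ⟨2, h2⟩), Nat.cast_one]
  have hlim : Tendsto (fun X : ℕ => (a X - 1) / b X) atTop
      (𝓝 (∏' i : ℕ, (1 - (1 / 3 : ℝ) ^ (i + 1)))) := by
    have h1 : Tendsto (fun X : ℕ => a X / b X - (b X)⁻¹) atTop
        (𝓝 (Pool.Agent.Y703.CX.c3 - 0)) := hden.sub (tendsto_inv_atTop_zero.comp hbt)
    rw [sub_zero] at h1
    refine h1.congr fun X => ?_
    rw [sub_div, one_div]
  refine ⟨?_, hc56, ?_⟩
  · refine hlim.congr' ?_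
    filter_upwards [eventually_ge_atTop 2] with X hX
    rw [e1, ← e2 X hX]
    rfl
  · refine ⟨c / 2, by positivity, ?_⟩
    have h56 : ∀ᶠ X : ℕ in atTop, (1 / 2 : ℝ) < (a X - 1) / b X :=
      hlim.eventually (lt_mem_nhds (lt_trans (by norm_num) hc56))
    filter_upwards [h56, eventually_ge_atTop X₀, eventually_ge_atTop 3,
      hbt.eventually_gt_atTop 0] with X h1 h2 h3 h4
    have hXr : (3 : ℝ) ≤ X := by exact_mod_cast h3
    have hl : 0 < Real.log X := Real.log_pos (by linarith)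
    have h5 := hlow' X h2
    rw [Real.rpow_neg hl.le, ← Real.sqrt_eq_rpow, ← div_eq_mul_inv] at h5
    rw [lt_div_iff₀ h4] at h1
    have h6 : (((Icc 1 X).filter fun D => Class D ∧
      (D : ℤ) ∈ {A | Pool.Agent.Q323.CA.SA A}).card : ℝ) ≤
      (((Icc 1 X).filter fun A : ℕ => (A : ℤ) ∈ {A | Pool.Agent.Q323.CA.SA A}).card : ℝ) := by
      refine Nat.cast_le.2 (card_le_card fun D hD => ?_)
      rw [mem_filter] at hD ⊢
      exact ⟨hD.1, hD.2.2⟩
    rw [e2 X (by omega)] at h6
    refine le_trans ?_ h6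
    have h7 : c / 2 * X / √(Real.log X) = 1 / 2 * (c * X / √(Real.log X)) := by ring
    rw [h7]
    linarith

end Pool.Agent.Results.MP_8e0b0b_nt.TrivialGroupOnDecidableSet
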