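import Mathlib
import Pool.Agent.Q8.WR.Prm
import Pool.Agent.TH841.PT.Fin2

/-!
# Tate-Shafarevich groups of products of Weil restrictions of twists, at prime arguments

For `1 ≤ j ≤ g` let `E_j` be an elliptic curve over `ℚ` with full rational 2-torsion, let `D_{j,0}`,
`D_{j,1}`, ..., `D_{j,s_j}` be arbitrary nonzero polynomials with integer coefficients, and let
`A_t = ∏_j Res_{F_{j,t}/ℚ} E_j^{D_{j,0}(t)}` with `F_{j,t} = ℚ(√D_{j,1}(t), ...)`, an abelian variety
over `ℚ` of dimension `∑_j [F_{j,t} : ℚ]`. All the moments of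
`2 ^ (rank A_t(ℚ) + corank of the 2-primary part of Ш(A_t))`, summed over the integers `t` of a
short interval at which `r` given irreducible polynomials take prime values, are `O(M / (log M) ^ r)`.
There is no exceptional set. For instance this holds for
`A_p = ∏_j Res_{ℚ(√(p + a_j))/ℚ} E_j^{(p + b_j)}`, `p` prime.
-/

set_option autoImplicit false

namespace Pool.Agent.Results.MP_a43263_nt.WeilRestrictionsAtPrimes

open Finset Polynomial

/-- the curve `y² = x³ + A x + B` over `F` -/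
def EF (A B : ℤ) (F : Type) [Field F] : WeierstrassCurve F := ⟨0, 0, 0, (A : F), (B : F)⟩

/-- the number field `F` is generated by square roots of the integers `d i` -/
def Gen (F : Type) [Field F] [NumberField F] {s : ℕ} (d : Fin s → ℤ) : Prop :=
  ∃ x : Fin s → F, (∀ i, x i ^ 2 = (d i : F)) ∧
    IntermediateField.adjoin ℚ (Set.range x) = ⊤

/-- the Tate-Shafarevich group `∏_j Ш(W_j / F_j)` of the abelian variety `∏_j Res_{F_j/ℚ} W_j` -/
abbrev Sha {g : ℕ} {F : Fin g → Type} [∀ j, Field (F j)] [∀ j, NumberField (F j)]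
    (W : ∀ j, WeierstrassCurve (F j)) : Type := ∀ j, Pool.Agent.TH841.NF.D.Sha (W j)

/-- `Ш` of `∏_j Res_{F_j/ℚ} W_j` has a subgroup isomorphic to `(ℚ₂ / ℤ₂) ^ q` -/
def HasDiv {g : ℕ} {F : Fin g → Type} [∀ j, Field (F j)] [∀ j, NumberField (F j)]
    (W : ∀ j, WeierstrassCurve (F j)) (q : ℕ) : Prop :=
  ∃ f : (Fin q → Pool.Agent.TH841.SH.D.Pruf) →+ Sha W, Function.Injective f

/-- the corank of the 2-primary part of `Ш` of `∏_j Res_{F_j/ℚ} W_j` -/
noncomputable def corank {g : ℕ} {F : Fin g → Type} [∀ j, Field (F j)] [∀ j, NumberField (F j)]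
    (W : ∀ j, WeierstrassCurve (F j)) : ℕ := sSup {q | HasDiv W q}

open scoped Classical in
/-- the rank of the group `∏_j W_j(F_j)` of the rational points of `∏_j Res_{F_j/ℚ} W_j` -/
noncomputable def rk {g : ℕ} {F : Fin g → Type} [∀ j, Field (F j)] [∀ j, NumberField (F j)]
    (W : ∀ j, WeierstrassCurve (F j)) : ℕ :=
  Module.finrank ℤ (∀ j, (W j).toAffine.Point)

open Classical in
/-- the integers `t` with `N < t ≤ N + M` that are not zeros of the polynomials `D₀ j`, `D j i` and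
for which all the `|G_i(t)|` are primes -/
noncomputable def Par {g r : ℕ} {s : Fin g → ℕ} (D₀ : Fin g → ℤ[X]) (D : ∀ j, Fin (s j) → ℤ[X])
    (G : Fin r → ℤ[X]) (N : ℤ) (M : ℕ) : Finset ℤ :=
  (Ioc N (N + (M : ℤ))).filter (fun t => (∀ j, (D₀ j).eval t ≠ 0 ∧ ∀ i, (D j i).eval t ≠ 0) ∧
    ∀ i, ((G i).eval t).natAbs.Prime)

open Classical in
/-- **Theorem.** Let `E_j : y² = (x - e₁) (x - e₂) (x - e₃) = x³ + A_j x + B_j`, `1 ≤ j ≤ g`, be
elliptic curves with integers `e₁`, `e₂`, `e₃` (depending on `j`), let `D₀ j` and `D j i`, `i < s_j`,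
be nonzero polynomials with integer coefficients, and let `G₁, ..., G_r` be irreducible polynomials
with integer coefficients, of positive degree and pairwise non-associated. Let `A_t` be the product
of the Weil restrictions to `ℚ` of the quadratic twists of `E_j` by `D₀ j (t)` over the fields
`F_{j,t} = ℚ(√(D j i (t)) : i < s_j)`. For all `k` and `L` there is `C` such that for all integers
`M ≥ 2` and `|N| ≤ M ^ L` and the `t` with `N < t ≤ N + M`, not a zero of the polynomials `D₀ j`,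
`D j i`, such that all the `|G_i(t)|` are primes: the coranks of the 2-primary parts of `Ш(A_t)` are
finite, the sum of `2 ^ (k (rank A_t + corank Ш(A_t)[2^∞]))` is at most `C M / (log M) ^ r`, and at
most `C M / (log M) ^ r / 2 ^ (k n)` of these `t` have `rank A_t + corank Ш(A_t)[2^∞] ≥ n`. -/
theorem result (g : ℕ) (hg : 1 ≤ g) (A B e₁ e₂ e₃ : Fin g → ℤ)
    (hE : ∀ j, 4 * A j ^ 3 + 27 * B j ^ 2 ≠ 0)
    (he : ∀ j, ∀ x : ℤ, x ^ 3 + A j * x + B j = (x - e₁ j) * (x - e₂ j) * (x - e₃ j))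
    (s : Fin g → ℕ) (D₀ : Fin g → ℤ[X]) (hD₀ : ∀ j, D₀ j ≠ 0) (D : ∀ j, Fin (s j) → ℤ[X])
    (hD : ∀ j i, D j i ≠ 0) (r : ℕ) (G : Fin r → ℤ[X])
    (hG : ∀ i, Irreducible (G i) ∧ 0 < (G i).natDegree)
    (hG' : ∀ i j, i ≠ j → ¬ Associated (G i) (G j)) (k L : ℕ) :
    ∃ C : ℝ, ∀ (N : ℤ) (M : ℕ), 2 ≤ M → |N| ≤ (M : ℤ) ^ L →
      ∀ (F : ℤ → Fin g → Type) [∀ t j, Field (F t j)] [∀ t j, NumberField (F t j)],
      (∀ t ∈ Par D₀ D G N M, ∀ j, Gen (F t j) (fun i => (D j i).eval t)) →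
      ∀ W : ∀ t j, WeierstrassCurve (F t j),
      (∀ t j, W t j = EF ((D₀ j).eval t ^ 2 * A j) ((D₀ j).eval t ^ 3 * B j) (F t j)) →
      (∀ t ∈ Par D₀ D G N M, BddAbove {q | HasDiv (W t) q}) ∧
      ∑ t ∈ Par D₀ D G N M, ((2 : ℝ) ^ (rk (W t) + corank (W t))) ^ k ≤
        C * (M / (Real.log M) ^ r) ∧
      ∀ n : ℕ, (((Par D₀ D G N M).filter (fun t => n ≤ rk (W t) + corank (W t))).card : ℝ) ≤
        C * (M / (Real.log M) ^ r) / 2 ^ (k * n) := by
  have hg0 : NeZero g := ⟨by omega⟩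
  have hirrG : Pool.Agent.TH841.PT.Irr G := ⟨fun i => (hG i).1, fun i => (hG i).2, hG'⟩
  obtain ⟨C, hC⟩ := Pool.Agent.Q8.WR.primeA Pool.Agent.TH841.PT.avh hirrG A B e₁ e₂ e₃ hE he s D₀
    hD₀ D hD k L
  refine ⟨C, fun N M hM hN F _ _ hF W hW => ?_⟩
  have hPar : Par D₀ D G N M = (Ioc N (N + M)).filter
      (fun t => (∀ j, (D₀ j).eval t ≠ 0 ∧ ∀ i, (D j i).eval t ≠ 0) ∧
        Pool.Agent.TH841.PT.AllPr G t) := by
    unfold Par Pool.Agent.TH841.PT.AllPr
    congr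
  obtain ⟨h1, h2, h3⟩ := hC N M hM hN (Par D₀ D G N M) (by rw [hPar]) F hF W hW
  have hrk : ∀ t, rk (W t) = Pool.Agent.Q8.WR.rkA (W t) := by
    intro t
    unfold rk Pool.Agent.Q8.WR.rkA
    congr!
  refine ⟨h1, ?_, fun n => ?_⟩
  · simp only [hrk]
    exact h2
  · simp only [hrk]
    exact h3 n

end Pool.Agent.Results.MP_a43263_nt.WeilRestrictionsAtPrimes
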